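import Pool.Agent.PLX.StmtsA

/-!
Squad PLX, row BC1: words of a block, their denominators, norms and heights.
-/

set_option autoImplicit false

namespace Pool.Agent.PLX.H59

open Module

section aux

variable {A : Type} [AddCommGroup A] [Module ℚ A]

/-- the real part of the image as a rational functional on a rational subspace -/
noncomputable def reL (Φ : A →+ ℂ) (M : Submodule ℚ A) : M →ₗ[ℚ] ℝ where
  toFun y := (Φ (y : A)).re
  map_add' := by
    intro x y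
    rw [Submodule.coe_add, map_add, Complex.add_re]
  map_smul' := by
    intro c y
    have h1 : Φ (((c • y : M)) : A) = ((c : ℝ) : ℂ) * Φ (y : A) := by
      rw [Submodule.coe_smul, Φ_rat, Complex.ofReal_ratCast]
    rw [h1, Complex.re_ofReal_mul, RingHom.id_apply, Rat.smul_def]

theorem reL_apply (Φ : A →+ ℂ) (M : Submodule ℚ A) (y : M) : reL Φ M y = (Φ (y : A)).re := rfl

theorem exists_pow {B : Type} [Monoid B] (Q : Set B) (l : List B) (hl : ∀ q ∈ l, q ∈ Q) :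
    ∀ n : ℕ, ∃ l' : List B, (∀ q ∈ l', q ∈ Q) ∧ l'.length = n * l.length ∧
      l'.prod = l.prod ^ n := by
  intro n
  induction n with
  | zero => exact ⟨[], by simp, by simp, by simp⟩
  | succ n ih =>
    obtain ⟨l', h1, h2, h3⟩ := ih
    refine ⟨l' ++ l, ?_, ?_, ?_⟩
    · intro q hq
      rcases List.mem_append.1 hq with h | h
      · exact h1 q h
      · exact hl q h
    · rw [List.length_append, h2]
      ring
    · rw [List.prod_append, h3, pow_succ]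

end aux

/-- a shortest nonzero element on a line of a block -/
theorem exists_short {A : Type} [AddCommGroup A] [Module ℚ A] {E : Type} [NormedAddCommGroup E]
    [NormedSpace ℝ E] {Φ : A →+ ℂ} {f : A →+ E} {G : AddSubgroup A} {N : ℝ → Submodule ℚ A}
    {W : Finset ℝ} {e : ℕ} {ρ j B : ℝ} (hb : Blk Φ f G N W e ρ j B) {t : ℝ} (ht : t ∈ W) :
    ∃ x ∈ Gr G (N t), x ≠ 0 ∧ ‖fr f (N t) x‖ ≤ ρ ∧
      (∀ y ∈ Gr G (N t), y ≠ 0 → ‖fr f (N t) x‖ ≤ ‖fr f (N t) y‖) ∧ reL Φ (N t) x ≠ 0 := by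
  classical
  have hd := hb.dsc.fr (N t)
  have hne : ((bl (fr f (N t)) (Gr G (N t)) ρ).filter fun x => x ≠ 0).Nonempty := by
    by_contra hcon
    rw [Finset.not_nonempty_iff_eq_empty, Finset.filter_eq_empty_iff] at hcon
    have h1 : bs f (cut G (N t)) ρ ≤ ⊥ := by
      unfold bs
      rw [Submodule.span_le]
      intro x hx
      rw [Finset.mem_coe, ← bl_fr hb.dsc, Finset.mem_map] at hx
      obtain ⟨y, hy, rfl⟩ := hx
      have h2 : y = 0 := by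
        by_contra h3
        exact hcon hy h3
      rw [h2]
      exact Submodule.zero_mem _
    rw [hb.gen t ht, le_bot_iff] at h1
    have h2 := hb.dim t ht
    rw [h1, finrank_bot] at h2
    have h3 := hb.he
    omega
  obtain ⟨x, hx, hmin⟩ := Finset.exists_min_image _ (fun x => ‖fr f (N t) x‖) hne
  rw [Finset.mem_filter, mem_bl hd] at hx
  obtain ⟨⟨hxG, hxρ⟩, hx0⟩ := hx
  refine ⟨x, hxG, hx0, hxρ, ?_, ?_⟩
  · intro y hy hy0
    rcases le_or_gt ‖fr f (N t) y‖ ρ with h | h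
    · exact hmin y (Finset.mem_filter.2 ⟨(mem_bl hd).2 ⟨hy, h⟩, hy0⟩)
    · exact hxρ.trans h.le
  · intro h0
    refine hx0 (Subtype.ext ?_)
    refine hb.ppr (x : A) hxG ?_ (eq_zero_of_re (hb.slo t ht x x.2) h0)
    have h1 : ‖f (x : A)‖ ≤ ρ := hxρ
    linarith [hb.hρ]

theorem bc1 (h1 : LmsStmt) (h2 : MulStmt) (h3 : WrdStmt) (h4 : PolStmt) : Bc1Stmt := by
  intro A _ _ E _ _ Φ f G N W e m ρ j B K t₁ t₂ S hb ht1 ht2 ht12 hS hK hKρ hm
  have hH1 : (1 : ℝ) ≤ 9 * B * W.card := hb.nar.hH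
  have hK1 : 1 ≤ K := by
    have h := one_le_pow₀ (n := 4) hH1
    rw [hK]
    linarith
  have hK0 : 0 ≤ K := by linarith
  have he := hb.he
  have hfd : FiniteDimensional ℚ A := hb.fin
  have ha : ∀ q ∈ Qs N W t₁ t₂ S, ∀ y : N t₁,
      Φ (q.1 y : A) = ((q.2 : ℝ) : ℂ) * Φ (y : A) := by
    rintro q ⟨k, hk, l, hl, hk1, hk2, hl1, hl2, rfl⟩ y
    exact h1 A Φ N W t₁ t₂ k l (S k l) hb.slo ht1 ht2 hk hl hk1 hk2 hl1 hl2
      (hS k hk l hl hk1 hk2 hl1 hl2) y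
  have hEig : ∀ q ∈ Qs N W t₁ t₂ S, Eig (reL Φ (N t₁)) q := by
    intro q hq y
    rw [reL_apply, reL_apply, ha q hq y, Complex.re_ofReal_mul]
  have hmul : ∀ q ∈ Qs N W t₁ t₂ S, ∀ x ∈ Gr G (N t₁), K * ‖fr f (N t₁) x‖ ≤ 1 →
      Mlt (fr f (N t₁)) (Gr G (N t₁)) K q.1 x := by
    rintro q ⟨k, hk, l, hl, hk1, hk2, hl1, hl2, rfl⟩ x hx hKx
    rw [hK] at hKx ⊢
    exact h2 A E Φ f G N W j (9 * B * W.card) t₁ t₂ k l (S k l) hb.nar ht1 ht2 hk hl ht12 hk1 hk2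
      hl1 hl2 (hS k hk l hl hk1 hk2 hl1 hl2) x hx hKx
  have hwrd := h3 (N t₁) E (fr f (N t₁)) (Gr G (N t₁)) (Qs N W t₁ t₂ S) K hK1 hmul
  have hsmall : ∀ n ≤ (e + 1) * e, ∀ y : N t₁, ‖fr f (N t₁) y‖ ≤ ρ →
      K ^ (n + 1) * ‖fr f (N t₁) y‖ ≤ 1 := by
    intro n hn y hy
    refine le_trans (mul_le_mul (pow_le_pow_right₀ hK1 (Nat.succ_le_succ hn)) hy (norm_nonneg _)
      (pow_nonneg hK0 _)) hKρ
  have hee : e + 1 ≤ (e + 1) * e := Nat.le_mul_of_pos_right _ he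
  refine ⟨ha, fun l hl hlen => ⟨fun y hy hyρ => ?_, ?_⟩⟩
  · exact hwrd l hl y hy (hsmall _ (hlen.trans hee) y hyρ)
  · obtain ⟨x, hxG, hx0, hxρ, hmin, hax⟩ := exists_short hb ht1
    refine h4 (N t₁) E (fr f (N t₁)) (Gr G (N t₁)) (reL Φ (N t₁)) e m (K ^ ((e + 1) * e))
      l.prod.2 l.prod.1 x (hb.dsc.fr (N t₁)) inferInstance (hb.dim t₁ ht1).le
      (one_le_pow₀ hK1) hxG hax hmin (eig_word hEig l hl) ?_ hm
    intro q hq
    obtain ⟨l', h5, h6, h7⟩ := exists_pow (Qs N W t₁ t₂ S) l hl q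
    have h8 : l'.length ≤ (e + 1) * e := by
      rw [h6, mul_comm]
      exact Nat.mul_le_mul hlen hq
    have h9 := hwrd l' h5 x hxG (hsmall _ h8 x hxρ)
    rw [h7, Prod.pow_fst] at h9
    exact h9.mono (pow_le_pow_right₀ hK1 h8)

end Pool.Agent.PLX.H59
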