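import Pool.Agent.PLX.StmtsA

set_option autoImplicit false

namespace Pool.Agent.PLX.H59

open Module

theorem pro (hTRA : TraStmt) (hPSI : PsiStmt) (hPRF : PrfStmt) (hPRC : PrcStmt) : ProStmt := by
  intro A _ _ E _ _ Φ f G N W e ρ j B t₁ t₂ S x ψ hB h1 h2 h12 hS hxG hx0 hsm hEig hψx
  by_contra hcon
  have hN := hB.nar
  have hWc : (5 : ℝ) ≤ W.card := by
    have h3 := hB.large
    have h4 := hB.hB
    nlinarith
  have hWc' : 5 ≤ W.card := by exact_mod_cast hWc
  have hthird : ∀ a b : ℝ, ∃ c ∈ W, c ≠ a ∧ c ≠ b := by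
    intro a b
    by_contra hc
    push Not at hc
    have h3 : W ⊆ {a, b} := by
      intro c hcW
      by_cases hca : c = a
      · simp [hca]
      · simp [hc c hcW hca]
    have h4 := Finset.card_le_card h3
    have h5 := Finset.card_le_two (a := a) (b := b)
    omega
  obtain ⟨H, hH⟩ : ∃ H : ℝ, H = 9 * B * W.card := ⟨_, rfl⟩
  rw [← hH] at hN hsm
  have hH1 : 1 ≤ H := hN.hH
  obtain ⟨π, hπ1, hπ2, hπ3⟩ := hPSI A N W t₁ t₂ S ψ hB.two h1 h2 h12 (by omega) hS hEig hcon
  have hx0' : (x : A) ≠ 0 := by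
    intro h
    exact hx0 (Subtype.ext h)
  have hxcut : (x : A) ∈ cut G (N t₁) := ⟨hxG, x.2⟩
  have hπx : π (x : A) = 0 := hπ2 x hψx
  have hxn : 0 < ‖f x‖ := norm_pos hB.dsc hxG hx0'
  have hH2 : H ≤ H ^ 2 := by nlinarith
  have hH4 : H ^ 2 ≤ H ^ 4 := by nlinarith [sq_nonneg H, sq_nonneg (H ^ 2)]
  have hle1 : ‖f x‖ * (H + 1) ≤ 1 := by
    have h4 : H + 1 ≤ 256 * H ^ 4 := by linarith
    calc ‖f x‖ * (H + 1) ≤ ‖f x‖ * (256 * H ^ 4) := mul_le_mul_of_nonneg_left h4 hxn.le
      _ = 256 * H ^ 4 * ‖f x‖ := by ring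
      _ ≤ 1 := hsm
  have hle2 : 16 * H ^ 2 * ‖f x‖ ≤ 1 := by
    have h4 : 16 * H ^ 2 ≤ 256 * H ^ 4 := by linarith
    exact (mul_le_mul_of_nonneg_right h4 hxn.le).trans hsm
  have hle3 : ‖f x‖ ≤ 2 := by nlinarith
  have hfib : ∀ t ∈ W, Fib Φ f G (N t) π t j := by
    intro t ht
    refine hPRF A E Φ f G (N t) π t j hB.dsc hB.ppr (hB.slo t ht) (hπ1 t ht) (hB.lines t ht) ?_ ?_
    · by_cases htt : t = t₁
      · subst htt
        exact ⟨x, hxcut, hx0', hle3, hπx⟩
      · obtain ⟨l, hl, hlt, hl1⟩ := hthird t t₁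
        obtain ⟨c, hc1, hcH, y', hy', z', hz', hxyz, hn1, hn2⟩ :=
          hTRA A E Φ f G N W j H t₁ t l hN h1 ht hl (Ne.symm htt) (Ne.symm hl1) (Ne.symm hlt) x
            hxcut hle1
        refine ⟨y', hy', ?_, by linarith, ?_⟩
        · intro h0
          have hz0 : c • (x : A) = z' := by rw [hxyz, h0, zero_add]
          have hcx : c • (x : A) ∈ N t₁ := (N t₁).nsmul_mem x.2 c
          have h4 : z' = 0 := by
            have h5 := (hB.two t₁ h1 l hl (Ne.symm hl1)).disjoint
            rw [Submodule.disjoint_def] at h5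
            exact h5 z' (hz0 ▸ hcx) hz'.2
          rw [h4] at hz0
          have h6 : (c : ℚ) • (x : A) = 0 := by
            rw [Nat.cast_smul_eq_nsmul]
            exact hz0
          rcases smul_eq_zero.1 h6 with h5 | h5
          · have h7 : c = 0 := by exact_mod_cast h5
            omega
          · exact hx0' h5
        · have h5 : π y' + π z' = 0 := by
            rw [← map_add, ← hxyz, map_nsmul, hπx, smul_zero]
          have h6 := hπ1 t ht y' hy'.2
          have h7 := hπ1 l hl z' hz'.2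
          have h8 : π y' = - π z' := eq_neg_of_add_eq_zero_left h5
          refine eq_zero_of_slopes (Ne.symm hlt) h6 ?_
          rw [h8, Complex.neg_im, Complex.neg_re, h7]
          ring
    · by_contra hno
      push Not at hno
      obtain ⟨m, hm, hm0⟩ := hπ3 t ht
      apply hm0
      rw [← hB.gen t ht] at hm
      have h9 : bs f (cut G (N t)) ρ ≤ LinearMap.ker π.toRatLinearMap := by
        unfold bs
        rw [Submodule.span_le]
        intro z hz
        have hz' := (mem_bl (hB.dsc.cut (N t))).1 hz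
        exact hno z hz'.1 (hz'.2.trans hB.hρ)
      exact h9 hm
  obtain ⟨a, b, hab, hcone⟩ := hB.narrow
  have hj := hB.hj
  have h10 := hPRC A E Φ f G N W π a b j hB.dsc hB.ppr hB.slo (by omega) (by linarith) hab hfib
  have h11 := hB.large
  have h12' : (0 : ℝ) < W.card * j ^ 2 := by
    have h13 : (0 : ℝ) < W.card := by linarith
    have h14 : 0 < j := by linarith
    positivity
  have h13 : (W.card : ℝ) ≤ 5184 * B := by
    by_contra hh
    push Not at hh
    have h14 : 5184 * B * (W.card * j ^ 2) < W.card * (W.card * j ^ 2) :=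
      mul_lt_mul_of_pos_right hh h12'
    nlinarith
  linarith

end Pool.Agent.PLX.H59
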